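import Pool.Agent.K1H43.SP.Single
import Pool.Agent.Results.MP_2d259b_nt.FewExceptionalCurves

/-!
The number of the integer points which lie on a curve whose height is small in comparison with the
point.
-/

set_option autoImplicit false

open Finset

namespace Pool.Agent.K1H43.SP

open Pool.Agent.H322R2

/-- the sum of the absolute values of the coefficients -/
def hgt (G : MvPolynomial (Fin 2) ℤ) : ℕ := ∑ m ∈ G.support, (G.coeff m).natAbs

/-- the degree of `G` is between `4` and `D`, `G` is irreducible over `ℚ`, its leading form is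
squarefree over `ℚ` -/
def Curve (D : ℕ) (G : MvPolynomial (Fin 2) ℤ) : Prop :=
  4 ≤ G.totalDegree ∧ G.totalDegree ≤ D ∧
    Irreducible (MvPolynomial.map (Int.castRingHom ℚ) G) ∧
    Squarefree (MvPolynomial.map (Int.castRingHom ℚ)
      (MvPolynomial.homogeneousComponent G.totalDegree G))

/-- the size of an integer point -/
def size (P : ℤ × ℤ) : ℕ := max P.1.natAbs P.2.natAbs

/-- all the curves through `P` satisfy the bound with the exponent `K` at `P` -/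
def Good (D : ℕ) (K : ℝ) (P : ℤ × ℤ) : Prop :=
  ∀ G : MvPolynomial (Fin 2) ℤ, Curve D G → MvPolynomial.eval ![P.1, P.2] G = 0 →
    (size P : ℝ) ≤ (((G.totalDegree + 1) * hgt G : ℕ) : ℝ) ^ K

/-- the large points of a curve -/
def Lg (G : MvPolynomial (Fin 2) ℤ) : Set (ℤ × ℤ) :=
  {P : ℤ × ℤ | MvPolynomial.eval ![P.1, P.2] G = 0 ∧
      ((G.totalDegree + 1) * len G) ^ (kE G.totalDegree) < max P.1.natAbs P.2.natAbs}

/-- the exceptional curves -/
def Wx (d H : ℕ) : Set (MvPolynomial (Fin 2) ℤ) :=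
  {F : MvPolynomial (Fin 2) ℤ | (F.totalDegree = d ∧ ∀ m, |F.coeff m| ≤ (H : ℤ)) ∧
      Irreducible (MvPolynomial.map (Int.castRingHom ℚ) F) ∧
      Squarefree (MvPolynomial.map (Int.castRingHom ℚ) (MvPolynomial.homogeneousComponent d F)) ∧
      ∃ x y : ℤ, MvPolynomial.eval ![x, y] F = 0 ∧
        ((d + 1) * ∑ m ∈ F.support, (F.coeff m).natAbs) ^ (10 ^ 11 * 36 ^ d * (d + 1) ^ 13)
          < max x.natAbs y.natAbs}

theorem Wx_fin {d : ℕ} (hd : 4 ≤ d) (H : ℕ) : (Wx d H).Finite ∧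
    (Wx d H).ncard ≤ 10 ^ 9 * 36 ^ d * (d + 1) ^ 8 * (2 * H + 1) ^ (4 * d - 2) := by
  obtain ⟨h1, h2⟩ := Pool.Agent.Results.MP_2d259b_nt.FewExceptionalCurves.result d hd H
  have hfin : {F : MvPolynomial (Fin 2) ℤ | F.totalDegree ≤ d ∧
      ∀ m, |F.coeff m| ≤ (H : ℤ)}.Finite := by
    apply Set.finite_of_ncard_ne_zero
    rw [h1]
    positivity
  exact ⟨hfin.subset fun F hF => ⟨hF.1.1.le, hF.1.2⟩, h2⟩

theorem coeff_le_hgt (G : MvPolynomial (Fin 2) ℤ) (m : Fin 2 →₀ ℕ) :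
    (G.coeff m).natAbs ≤ hgt G := by
  unfold hgt
  by_cases h : m ∈ G.support
  · exact Finset.single_le_sum (f := fun m => (G.coeff m).natAbs) (fun _ _ => Nat.zero_le _) h
  · rw [MvPolynomial.notMem_support_iff] at h
    rw [h]
    exact Nat.zero_le _

/-- the constant in the exponent -/
def CE (D : ℕ) : ℕ := 10 ^ 11 * 36 ^ D * (D + 1) ^ 13

theorem CE_mono {d D : ℕ} (h : d ≤ D) : CE d ≤ CE D := by
  unfold CE
  exact Nat.mul_le_mul (Nat.mul_le_mul_left _ (Nat.pow_le_pow_right (by norm_num) h))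
    (Nat.pow_le_pow_left (by omega) _)

theorem one_le_CE (D : ℕ) : 1 ≤ CE D := by
  unfold CE
  exact Nat.mul_pos (Nat.mul_pos (by norm_num) (Nat.pow_pos (by norm_num)))
    (Nat.pow_pos (by omega))

/-- the constant in front -/
def CA (D : ℕ) : ℕ := 10 ^ 18 * 104976 ^ D * (D + 1) ^ 16

/-- a bad point lies on an exceptional curve of small height -/
theorem bad_mem {D : ℕ} {K : ℝ} (hK : (CE D : ℝ) ≤ K) {B : ℝ} {P : ℤ × ℤ}
    (hP : (size P : ℝ) ≤ B) (hbad : ¬ Good D K P) :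
    ∃ d G, d ∈ Finset.Icc 4 D ∧ G ∈ Wx d ⌊B ^ (1 / K)⌋₊ ∧ P ∈ Lg G := by
  unfold Good at hbad
  push Not at hbad
  obtain ⟨G, ⟨h1, h2, h3, h4⟩, h5, h6⟩ := hbad
  have hG0 : G ≠ 0 := by
    rintro rfl
    simp at h1
  have hlen : 1 ≤ hgt G := len_pos hG0
  have hK1 : (1 : ℝ) ≤ K := le_trans (by exact_mod_cast one_le_CE D) hK
  have hb1 : (1 : ℝ) ≤ (((G.totalDegree + 1) * hgt G : ℕ) : ℝ) := by
    have : 1 ≤ (G.totalDegree + 1) * hgt G := Nat.mul_pos (by omega) hlen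
    exact_mod_cast this
  have hhg : (hgt G : ℝ) ≤ (((G.totalDegree + 1) * hgt G : ℕ) : ℝ) := by
    have : hgt G ≤ (G.totalDegree + 1) * hgt G := Nat.le_mul_of_pos_left _ (by omega)
    exact_mod_cast this
  have hlt : (hgt G : ℝ) ^ K ≤ B := by
    refine le_trans (Real.rpow_le_rpow (by positivity) hhg (by linarith)) ?_
    linarith
  have hHt : (hgt G : ℝ) ≤ B ^ (1 / K) := by
    have h7 : ((hgt G : ℝ) ^ K) ^ (1 / K) = hgt G := by
      rw [← Real.rpow_mul (by positivity), mul_one_div_cancel (by linarith), Real.rpow_one]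
    rw [← h7]
    exact Real.rpow_le_rpow (by positivity) hlt (by positivity)
  have hHn : hgt G ≤ ⌊B ^ (1 / K)⌋₊ := Nat.le_floor hHt
  have hbig : ((G.totalDegree + 1) * hgt G) ^ (CE G.totalDegree) < size P := by
    have h7 : ((((G.totalDegree + 1) * hgt G) ^ (CE G.totalDegree) : ℕ) : ℝ) < (size P : ℝ) := by
      refine lt_of_le_of_lt ?_ h6
      rw [Nat.cast_pow, ← Real.rpow_natCast]
      exact Real.rpow_le_rpow_of_exponent_le hb1
        (le_trans (by exact_mod_cast CE_mono h2) hK)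
    exact_mod_cast h7
  refine ⟨G.totalDegree, G, Finset.mem_Icc.2 ⟨h1, h2⟩, ⟨⟨rfl, fun m => ?_⟩, h3, h4, P.1, P.2, h5,
    hbig⟩, h5, hbig⟩
  rw [Int.abs_eq_natAbs]
  exact_mod_cast (coeff_le_hgt G m).trans hHn

theorem Q_nonneg {x κ : ℝ} (hx : 0 ≤ x) (hκ : 0 ≤ κ) (D : ℕ) :
    0 ≤ x * (10 ^ 9 * 36 ^ D * (x + 1) ^ 8 * (168 * x ^ 3 * κ)) := by
  positivity

/-- **The count.** -/
theorem count {D : ℕ} {K : ℝ} (hK : (CE D : ℝ) ≤ K) {B : ℝ} (hB : 1 ≤ B) :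
    {P : ℤ × ℤ | ¬ Good D K P ∧ (size P : ℝ) ≤ B}.Finite ∧
      ({P : ℤ × ℤ | ¬ Good D K P ∧ (size P : ℝ) ≤ B}.ncard : ℝ) ≤
        CA D * B ^ (((4 * D - 2 : ℕ) : ℝ) / K) := by
  classical
  have hK1 : (1 : ℝ) ≤ K := le_trans (by exact_mod_cast one_le_CE D) hK
  obtain ⟨H, hH⟩ : ∃ H, H = ⌊B ^ (1 / K)⌋₊ := ⟨_, rfl⟩
  set L : MvPolynomial (Fin 2) ℤ → Finset (ℤ × ℤ) := fun G =>
    if h : (Lg G).Finite then h.toFinset else ∅ with hL
  set Wf : ℕ → Finset (MvPolynomial (Fin 2) ℤ) := fun d =>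
    if h : (Wx d H).Finite then h.toFinset else ∅ with hWf
  set U : Finset (ℤ × ℤ) := (Finset.Icc 4 D).biUnion fun d => (Wf d).biUnion L with hU
  have hLg : ∀ d, 4 ≤ d → ∀ G ∈ Wx d H, (Lg G).Finite ∧ (L G).card ≤ 168 * d ^ 3 * kap d := by
    intro d hd G hG
    obtain ⟨⟨h1, -⟩, h2, h3, -⟩ := hG
    have h4 := single G (by rw [h1]; exact hd) h2 (by rw [h1]; exact h3)
    have h5 : (Lg G).Finite := Set.finite_of_encard_le_coe h4
    refine ⟨h5, ?_⟩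
    rw [hL]
    simp only
    rw [dif_pos h5]
    have h6 : (Lg G).encard ≤ (168 * G.totalDegree ^ 3 * kap G.totalDegree : ℕ) := h4
    rw [h5.encard_eq_coe_toFinset_card, h1] at h6
    exact_mod_cast h6
  have hsub : {P : ℤ × ℤ | ¬ Good D K P ∧ (size P : ℝ) ≤ B} ⊆ (U : Set (ℤ × ℤ)) := by
    rintro P ⟨h1, h2⟩
    obtain ⟨d, G, h3, h4, h5⟩ := bad_mem hK h2 h1
    rw [← hH] at h4
    have hd := (Finset.mem_Icc.1 h3).1
    rw [Finset.mem_coe, hU, Finset.mem_biUnion]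
    refine ⟨d, h3, ?_⟩
    rw [Finset.mem_biUnion]
    refine ⟨G, ?_, ?_⟩
    · rw [hWf]
      simp only
      rw [dif_pos (Wx_fin hd H).1, Set.Finite.mem_toFinset]
      exact h4
    · rw [hL]
      simp only
      rw [dif_pos (hLg d hd G h4).1, Set.Finite.mem_toFinset]
      exact h5
  have hfin := (Finset.finite_toSet U).subset hsub
  refine ⟨hfin, ?_⟩
  have hc1 : {P : ℤ × ℤ | ¬ Good D K P ∧ (size P : ℝ) ≤ B}.ncard ≤ U.card := by
    rw [← Set.ncard_coe_finset]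
    exact Set.ncard_le_ncard hsub (Finset.finite_toSet U)
  have hc2 : ∀ d ∈ Finset.Icc 4 D, ((Wf d).biUnion L).card ≤
      10 ^ 9 * 36 ^ D * (D + 1) ^ 8 * (2 * H + 1) ^ (4 * D - 2) * (168 * D ^ 3 * kap D) := by
    intro d hd
    obtain ⟨hd1, hd2⟩ := Finset.mem_Icc.1 hd
    obtain ⟨hf, hc⟩ := Wx_fin hd1 H
    have e1 : (Wf d).card ≤ 10 ^ 9 * 36 ^ d * (d + 1) ^ 8 * (2 * H + 1) ^ (4 * d - 2) := by
      rw [hWf]
      simp only
      rw [dif_pos hf]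
      rwa [Set.ncard_eq_toFinset_card _ hf] at hc
    have e2 : ((Wf d).biUnion L).card ≤ (Wf d).card * (168 * d ^ 3 * kap d) := by
      apply Finset.card_biUnion_le_card_mul
      intro G hG
      rw [hWf] at hG
      simp only at hG
      rw [dif_pos hf, Set.Finite.mem_toFinset] at hG
      exact (hLg d hd1 G hG).2
    have e3 : kap d ≤ kap D := by
      unfold kap
      exact Nat.mul_le_mul (Nat.mul_le_mul_left _ (Nat.pow_le_pow_right (by norm_num) hd2))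
        (Nat.pow_le_pow_left (by omega) _)
    refine e2.trans ?_
    have e4 : 10 ^ 9 * 36 ^ d * (d + 1) ^ 8 * (2 * H + 1) ^ (4 * d - 2) ≤
        10 ^ 9 * 36 ^ D * (D + 1) ^ 8 * (2 * H + 1) ^ (4 * D - 2) := by
      refine Nat.mul_le_mul (Nat.mul_le_mul (Nat.mul_le_mul_left _
        (Nat.pow_le_pow_right (by norm_num) hd2)) (Nat.pow_le_pow_left (by omega) _))
        (Nat.pow_le_pow_right (by omega) (by omega))
    exact Nat.mul_le_mul (e1.trans e4) (Nat.mul_le_mul (Nat.mul_le_mul_left _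
      (Nat.pow_le_pow_left hd2 _)) e3)
  have hc3 : U.card ≤ D * (10 ^ 9 * 36 ^ D * (D + 1) ^ 8 * (2 * H + 1) ^ (4 * D - 2) *
      (168 * D ^ 3 * kap D)) := by
    have e1 := Finset.card_biUnion_le_card_mul (Finset.Icc 4 D) (fun d => (Wf d).biUnion L) _ hc2
    refine e1.trans (Nat.mul_le_mul_right _ ?_)
    rw [Nat.card_Icc]
    omega
  have hBK : (1 : ℝ) ≤ B ^ (1 / K) := Real.one_le_rpow hB (by positivity)
  have hHB : (2 * (H : ℝ) + 1) ≤ 3 * B ^ (1 / K) := by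
    have h1 : (H : ℝ) ≤ B ^ (1 / K) := by
      rw [hH]
      exact Nat.floor_le (by positivity)
    linarith
  have hpow : (2 * (H : ℝ) + 1) ^ (4 * D - 2) ≤ 81 ^ D * B ^ (((4 * D - 2 : ℕ) : ℝ) / K) := by
    calc (2 * (H : ℝ) + 1) ^ (4 * D - 2) ≤ (3 * B ^ (1 / K)) ^ (4 * D - 2) :=
          pow_le_pow_left₀ (by positivity) hHB _
      _ = 3 ^ (4 * D - 2) * B ^ (((4 * D - 2 : ℕ) : ℝ) / K) := by
          rw [mul_pow]
          congr 1
          rw [← Real.rpow_natCast, ← Real.rpow_mul (by linarith)]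
          congr 1
          ring
      _ ≤ 81 ^ D * B ^ (((4 * D - 2 : ℕ) : ℝ) / K) := by
          refine mul_le_mul_of_nonneg_right ?_ (by positivity)
          have h1 : (81 : ℝ) ^ D = 3 ^ (4 * D) := by
            rw [pow_mul]
            norm_num
          rw [h1]
          exact pow_le_pow_right₀ (by norm_num) (by omega)
  have hconst : (D : ℝ) * (10 ^ 9 * 36 ^ D * ((D : ℝ) + 1) ^ 8 * (168 * (D : ℝ) ^ 3 * (kap D : ℝ)))
      * 81 ^ D ≤ CA D := by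
    have h1 : D * (10 ^ 9 * 36 ^ D * (D + 1) ^ 8 * (168 * D ^ 3 * kap D)) * 81 ^ D ≤ CA D := by
      unfold kap CA
      have h2 : (104976 : ℕ) ^ D = 36 ^ D * 36 ^ D * 81 ^ D := by
        rw [← mul_pow, ← mul_pow]
        norm_num
      rw [h2]
      calc D * (10 ^ 9 * 36 ^ D * (D + 1) ^ 8 * (168 * D ^ 3 * (10 ^ 6 * 36 ^ D * (D + 1) ^ 4))) *
            81 ^ D = 168 * 10 ^ 15 * (36 ^ D * 36 ^ D * 81 ^ D) * ((D + 1) ^ 12 * D ^ 4) := by ring
        _ ≤ 10 ^ 18 * (36 ^ D * 36 ^ D * 81 ^ D) * ((D + 1) ^ 12 * (D + 1) ^ 4) := by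
            gcongr
            · norm_num
            · omega
        _ = _ := by ring
    exact_mod_cast h1
  have hc4 : ({P : ℤ × ℤ | ¬ Good D K P ∧ (size P : ℝ) ≤ B}.ncard : ℝ) ≤
      ((D * (10 ^ 9 * 36 ^ D * (D + 1) ^ 8 * (2 * H + 1) ^ (4 * D - 2) *
      (168 * D ^ 3 * kap D)) : ℕ) : ℝ) := Nat.cast_le.2 (hc1.trans hc3)
  have hc5 : ((D * (10 ^ 9 * 36 ^ D * (D + 1) ^ 8 * (2 * H + 1) ^ (4 * D - 2) *
      (168 * D ^ 3 * kap D)) : ℕ) : ℝ) =
      ((D : ℝ) * (10 ^ 9 * 36 ^ D * ((D : ℝ) + 1) ^ 8 * (168 * (D : ℝ) ^ 3 * (kap D : ℝ)))) *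
        (2 * (H : ℝ) + 1) ^ (4 * D - 2) := by
    push_cast
    ring
  rw [hc5] at hc4
  have hQ0 : 0 ≤ (D : ℝ) * (10 ^ 9 * 36 ^ D * ((D : ℝ) + 1) ^ 8 *
      (168 * (D : ℝ) ^ 3 * (kap D : ℝ))) := by
    exact Q_nonneg (Nat.cast_nonneg D) (Nat.cast_nonneg _) D
  generalize (D : ℝ) * (10 ^ 9 * 36 ^ D * ((D : ℝ) + 1) ^ 8 *
      (168 * (D : ℝ) ^ 3 * (kap D : ℝ))) = Q at hc4 hQ0 hconst
  have hB0 : 0 ≤ B ^ (((4 * D - 2 : ℕ) : ℝ) / K) := Real.rpow_nonneg (by linarith) _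
  refine hc4.trans ((mul_le_mul_of_nonneg_left hpow hQ0).trans ?_)
  rw [← mul_assoc]
  exact mul_le_mul_of_nonneg_right hconst hB0

end Pool.Agent.K1H43.SP
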