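import Pool.Agent.R479.DB.Lim

/-!
The points of a metric space which are close, at infinitely many scales, to one of a few given
points: families of maps.
-/

set_option autoImplicit false

namespace Pool.Agent.K1H43.SP

open MeasureTheory Filter Topology
open scoped ENNReal

theorem dim_fam {X : Type} [MetricSpace X] {Y : Type} [Countable Y] (v : ℕ → ℝ)
    (hpos : ∀ n, 0 < v n) {τ s a : ℝ} (ha : 0 ≤ a) (hs : 0 ≤ s) (hτ : 0 < τ)
    (hv : ∀ t : ℝ, a < t → Summable fun n => v n ^ (-t)) (φ : ℕ → Y → X) (G : ℕ → Finset Y)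
    {C : ℝ} (hcard : ∀ n, ((G n).card : ℝ) ≤ C * v n ^ s) {c : ℝ} (hc : 0 < c) :
    dimH {ξ : X | {p : (n : ℕ) × {y // y ∈ G n} |
      dist ξ (φ p.1 p.2.1) ≤ c * v p.1 ^ (-τ)}.Infinite} ≤ ENNReal.ofReal ((a + s) / τ) := by
  apply ENNReal.le_of_forall_pos_le_add
  intro ε hε _
  have hε' : (0 : ℝ) < ε := by exact_mod_cast hε
  rw [← ENNReal.ofReal_coe_nnreal (p := ε), ← ENNReal.ofReal_add (by positivity) hε'.le]
  set D : ℝ := (a + s) / τ + ε with hD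
  have hD0 : 0 < D := by positivity
  have hDτ : τ * D = a + s + τ * ε := by
    rw [hD, mul_add, mul_div_cancel₀ _ hτ.ne']
  refine Pool.Agent.R479.DB.dimH_limsup (fun p : (n : ℕ) × {y // y ∈ G n} =>
    {ξ : X | dist ξ (φ p.1 p.2.1) ≤ c * v p.1 ^ (-τ)})
    (fun p => 2 * c * v p.1 ^ (-τ)) (fun p => ?_) (fun p => ?_) hD0 ?_
  · have := hpos p.1
    positivity
  · have hl := hpos p.1
    refine Metric.ediam_le_of_forall_dist_le fun ξ hξ ζ hζ => ?_
    have hξ' : dist ξ (φ p.1 p.2.1) ≤ c * v p.1 ^ (-τ) := hξ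
    have hζ' : dist ζ (φ p.1 p.2.1) ≤ c * v p.1 ^ (-τ) := hζ
    have := dist_triangle_right ξ ζ (φ p.1 p.2.1)
    linarith
  · rw [summable_sigma_of_nonneg (fun p => by
      have := hpos p.1
      positivity)]
    refine ⟨fun n => Summable.of_finite, ?_⟩
    refine Summable.of_nonneg_of_le (fun n => tsum_nonneg fun _ => by
      have := hpos n
      positivity) (fun n => ?_) ((hv (a + τ * ε) (by nlinarith)).mul_left
        (|C| * (2 * c) ^ D))
    have hl := hpos n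
    show ∑' _ : {y // y ∈ G n}, (2 * c * v n ^ (-τ)) ^ D ≤ _
    rw [tsum_const, Nat.card_eq_fintype_card, Fintype.card_coe, nsmul_eq_mul]
    have e1 : (2 * c * v n ^ (-τ)) ^ D = (2 * c) ^ D * v n ^ (-(τ * D)) := by
      rw [Real.mul_rpow (by positivity) (by positivity), ← Real.rpow_mul hl.le]
      congr 2
      ring
    have e2 : v n ^ s * v n ^ (-(τ * D)) = v n ^ (-(a + τ * ε)) := by
      rw [← Real.rpow_add hl, hDτ]
      congr 1
      ring
    calc ((G n).card : ℝ) * (2 * c * v n ^ (-τ)) ^ D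
        ≤ (|C| * v n ^ s) * ((2 * c) ^ D * v n ^ (-(τ * D))) := by
          rw [e1]
          refine mul_le_mul_of_nonneg_right ((hcard n).trans ?_) (by positivity)
          exact mul_le_mul_of_nonneg_right (le_abs_self C) (by positivity)
      _ = |C| * (2 * c) ^ D * (v n ^ s * v n ^ (-(τ * D))) := by ring
      _ = _ := by rw [e2]

/-- outside of the exceptional set -/
theorem eventually_of_finite {Y : Type} (G : ℕ → Finset Y) (P : ℕ → Y → Prop)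
    (h : {p : (n : ℕ) × {y // y ∈ G n} | P p.1 p.2.1}.Finite) :
    ∀ᶠ n in atTop, ∀ y ∈ G n, ¬ P n y := by
  have h1 := h.image Sigma.fst
  obtain ⟨m, hm⟩ := h1.bddAbove
  filter_upwards [eventually_gt_atTop m] with n hn x hx hP
  have h2 : n ≤ m := hm ⟨⟨n, x, hx⟩, hP, rfl⟩
  omega

/-- **General form.** A set `Z` of objects `y` of size `H y`, with at most `C B ^ s` objects of size
at most `B ≥ 1`. -/
theorem fam_main {X : Type} [MetricSpace X] {Y : Type} [Countable Y] (H : Y → ℝ) (Z : Set Y)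
    {C s : ℝ} (hs : 0 ≤ s)
    (hcount : ∀ B : ℝ, 1 ≤ B → {y | y ∈ Z ∧ H y ≤ B}.Finite ∧
      ({y | y ∈ Z ∧ H y ≤ B}.ncard : ℝ) ≤ C * B ^ s)
    (v : ℕ → ℝ) (hv1 : ∀ n, 1 ≤ v n) {τ a : ℝ} (ha : 0 ≤ a) (hτ : 0 < τ)
    (hv : ∀ t : ℝ, a < t → Summable fun n => v n ^ (-t)) (φ : ℕ → Y → X) :
    ∃ E : Set X, dimH E ≤ ENNReal.ofReal ((a + s) / τ) ∧ ∀ ξ : X, ξ ∉ E → ∀ A : ℝ,
      ∀ᶠ n in atTop, ∀ y : Y, H y ≤ A * v n → dist ξ (φ n y) ≤ A * v n ^ (-τ) → y ∉ Z := by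
  classical
  have hpos : ∀ n, 0 < v n := fun n => lt_of_lt_of_le one_pos (hv1 n)
  have hfin : ∀ k n : ℕ, {y | y ∈ Z ∧ H y ≤ ((k : ℝ) + 1) * v n}.Finite := fun k n => by
    have hk : (0 : ℝ) ≤ k := Nat.cast_nonneg k
    exact (hcount _ (by nlinarith [hv1 n])).1
  set G : ℕ → ℕ → Finset Y := fun k n => (hfin k n).toFinset with hG
  have hcard : ∀ k n : ℕ, ((G k n).card : ℝ) ≤ (|C| * ((k : ℝ) + 1) ^ s) * v n ^ s := by
    intro k n
    have hk : (0 : ℝ) ≤ k := Nat.cast_nonneg k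
    have h := (hcount (((k : ℝ) + 1) * v n) (by nlinarith [hv1 n])).2
    rw [Set.ncard_eq_toFinset_card _ (hfin k n)] at h
    refine h.trans ?_
    rw [Real.mul_rpow (by positivity) (hpos n).le, mul_assoc]
    have hp := hpos n
    exact mul_le_mul_of_nonneg_right (le_abs_self C) (by positivity)
  set Ec : ℕ → Set X := fun k => {ξ : X | {p : (n : ℕ) × {y // y ∈ G k n} |
      dist ξ (φ p.1 p.2.1) ≤ ((k : ℝ) + 1) * v p.1 ^ (-τ)}.Infinite} with hEc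
  refine ⟨⋃ k, Ec k, ?_, fun ξ hξ A => ?_⟩
  · rw [dimH_iUnion]
    refine iSup_le fun k => ?_
    exact dim_fam v hpos ha hs hτ hv φ (G k) (hcard k) (by positivity)
  · obtain ⟨k, hk⟩ := exists_nat_ge A
    have h1 : ξ ∉ Ec k := fun h => hξ (Set.mem_iUnion.2 ⟨k, h⟩)
    have h2 : {p : (n : ℕ) × {y // y ∈ G k n} |
        dist ξ (φ p.1 p.2.1) ≤ ((k : ℝ) + 1) * v p.1 ^ (-τ)}.Finite := by
      by_contra h
      exact h1 h
    have h3 := eventually_of_finite (G k)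
      (fun n y => dist ξ (φ n y) ≤ ((k : ℝ) + 1) * v n ^ (-τ)) h2
    filter_upwards [h3] with n hn y hy1 hy2 hy3
    have hp := hpos n
    refine hn y ?_ (hy2.trans ?_)
    · rw [hG]
      simp only
      rw [Set.Finite.mem_toFinset]
      refine ⟨hy3, hy1.trans ?_⟩
      exact mul_le_mul_of_nonneg_right (by linarith) hp.le
    · exact mul_le_mul_of_nonneg_right (by linarith) (by positivity)

/-- **A single map.** -/
theorem single_map {X : Type} [MetricSpace X] {Y : Type} [Countable Y] (H : Y → ℝ)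
    (Z : Set Y) {C s : ℝ} (hs : 0 ≤ s)
    (hcount : ∀ B : ℝ, 1 ≤ B → {y | y ∈ Z ∧ H y ≤ B}.Finite ∧
      ({y | y ∈ Z ∧ H y ≤ B}.ncard : ℝ) ≤ C * B ^ s) {τ : ℝ} (hτ : 0 < τ) (φ : Y → X) :
    ∃ E : Set X, dimH E ≤ ENNReal.ofReal (s / τ) ∧ ∀ ξ : X, ξ ∉ E → ∀ A : ℝ,
      {y | y ∈ Z ∧ 1 ≤ H y ∧ dist ξ (φ y) ≤ A * H y ^ (-τ)}.Finite := by
  obtain ⟨E, hE, h⟩ := fam_main (X := X) H Z hs hcount (fun n => (2 : ℝ) ^ n)
    (fun n => one_le_pow₀ (by norm_num)) (τ := τ) (a := 0) le_rfl hτ (by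
      intro t ht
      have h1 : ∀ n : ℕ, ((2 : ℝ) ^ n) ^ (-t) = ((2 : ℝ) ^ (-t)) ^ n := by
        intro n
        rw [← Real.rpow_natCast, ← Real.rpow_natCast, ← Real.rpow_mul (by norm_num),
          ← Real.rpow_mul (by norm_num), mul_comm]
      refine (summable_geometric_of_lt_one (by positivity) ?_).congr (fun n => (h1 n).symm)
      exact Real.rpow_lt_one_of_one_lt_of_neg (by norm_num) (by linarith)) (fun _ => φ)
  rw [zero_add] at hE
  refine ⟨E, hE, fun ξ hξ A => ?_⟩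
  obtain ⟨N, hN⟩ := eventually_atTop.1 (h ξ hξ (max 1 (|A| * 2 ^ τ)))
  refine (hcount ((2 : ℝ) ^ N) (one_le_pow₀ (by norm_num))).1.subset ?_
  rintro y ⟨h1, h2, h3⟩
  refine ⟨h1, ?_⟩
  by_contra hcon
  push Not at hcon
  obtain ⟨n, hn⟩ : ∃ n : ℕ, (2 : ℝ) ^ n ≤ H y ∧ H y < (2 : ℝ) ^ (n + 1) :=
    exists_nat_pow_near h2 (by norm_num)
  have hNn : N ≤ n + 1 := by
    by_contra hlt
    push Not at hlt
    have : (2 : ℝ) ^ (n + 1) ≤ 2 ^ N := pow_le_pow_right₀ (by norm_num) hlt.le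
    linarith [hn.2]
  have hp : (0 : ℝ) < 2 ^ (n + 1) := by positivity
  refine hN (n + 1) hNn y ?_ ?_ h1
  · have h4 : (1 : ℝ) ≤ max 1 (|A| * 2 ^ τ) := le_max_left _ _
    show H y ≤ max 1 (|A| * 2 ^ τ) * (2 : ℝ) ^ (n + 1)
    nlinarith [hn.2]
  · refine h3.trans ?_
    show A * H y ^ (-τ) ≤ max 1 (|A| * 2 ^ τ) * ((2 : ℝ) ^ (n + 1)) ^ (-τ)
    have h5 : H y ^ (-τ) ≤ 2 ^ τ * ((2 : ℝ) ^ (n + 1)) ^ (-τ) := by
      have h6 : ((2 : ℝ) ^ (n + 1)) / 2 ≤ H y := by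
        rw [pow_succ]
        linarith [hn.1]
      have h7 : H y ^ (-τ) ≤ (((2 : ℝ) ^ (n + 1)) / 2) ^ (-τ) :=
        Real.rpow_le_rpow_of_nonpos (by positivity) h6 (by linarith)
      refine h7.trans (le_of_eq ?_)
      rw [Real.div_rpow hp.le (by norm_num), Real.rpow_neg (by norm_num : (0 : ℝ) ≤ 2) τ,
        div_inv_eq_mul, mul_comm]
    calc A * H y ^ (-τ) ≤ |A| * H y ^ (-τ) :=
          mul_le_mul_of_nonneg_right (le_abs_self A) (by positivity)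
      _ ≤ |A| * (2 ^ τ * ((2 : ℝ) ^ (n + 1)) ^ (-τ)) :=
          mul_le_mul_of_nonneg_left h5 (abs_nonneg A)
      _ = (|A| * 2 ^ τ) * ((2 : ℝ) ^ (n + 1)) ^ (-τ) := by ring
      _ ≤ _ := mul_le_mul_of_nonneg_right (le_max_right _ _) (by positivity)

end Pool.Agent.K1H43.SP
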