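import Pool.Agent.R479.DA.Lim

/-!
Random subsets of a countable set and a thin subset.
-/

set_option autoImplicit false

namespace Pool.Agent.K1H43.SP

open MeasureTheory Filter Topology
open scoped ENNReal

theorem random_main {Ω : Type} [MeasurableSpace Ω] (μ : Measure Ω) {Y : Type} [Countable Y]
    (H : Y → ℝ) (Z : Set Y) (hZ : ∀ y ∈ Z, 1 ≤ H y) {C u s c : ℝ} (hus : u < s) (hs : 0 < s)
    (hcount : ∀ B : ℝ, 1 ≤ B → {y | y ∈ Z ∧ H y ≤ B}.Finite ∧
      ({y | y ∈ Z ∧ H y ≤ B}.ncard : ℝ) ≤ C * B ^ u)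
    (A : Y → Set Ω) (hA : ∀ y ∈ Z, μ (A y) ≤ ENNReal.ofReal (c * H y ^ (-s))) :
    ∀ᵐ ω ∂μ, {y | y ∈ Z ∧ ω ∈ A y}.Finite := by
  have h2 := Pool.Agent.R479.DA.summable_heights (ι := Z) (fun x => H x.1)
    (fun x => hZ x.1 x.2) (s := u) (p := s) (C := C) hus hs (by
      intro B hB
      obtain ⟨hfin, hle⟩ := hcount B hB
      have hinj : Set.InjOn (Subtype.val : Z → Y) {x | H x.1 ≤ B} :=
        Subtype.val_injective.injOn
      have himg : (Subtype.val : Z → Y) '' {x | H x.1 ≤ B} = {x | x ∈ Z ∧ H x ≤ B} := by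
        ext t
        constructor
        · rintro ⟨u, hu, rfl⟩
          exact ⟨u.2, hu⟩
        · rintro ⟨ht, htX⟩
          exact ⟨⟨t, ht⟩, htX, rfl⟩
      refine ⟨Set.Finite.of_finite_image (by rw [himg]; exact hfin) hinj, ?_⟩
      rw [← hinj.ncard_image, himg]
      exact hle)
  have h3 : ∑' y : Z, μ (A y.1) ≠ ∞ := by
    have h4 := (h2.mul_left |c|).tsum_ofReal_ne_top
    refine ne_top_of_le_ne_top h4 (ENNReal.tsum_le_tsum fun y => ?_)
    refine (hA y.1 y.2).trans (ENNReal.ofReal_le_ofReal ?_)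
    have h5 : (0 : ℝ) ≤ H y.1 ^ (-s) :=
      Real.rpow_nonneg (le_trans zero_le_one (hZ y.1 y.2)) _
    exact mul_le_mul_of_nonneg_right (le_abs_self c) h5
  have h4 := ae_finite_setOfPred_mem h3
  filter_upwards [h4] with ω hω
  refine (hω.image Subtype.val).subset ?_
  rintro y ⟨h5, h6⟩
  exact ⟨⟨y, h5⟩, h6, rfl⟩

end Pool.Agent.K1H43.SP
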