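import Pool.Agent.H322R2.DFin2
import Pool.Agent.H322R2.YFin3

/-!
The number of large integer points on a single plane curve with squarefree leading form.
-/

set_option autoImplicit false

open Polynomial Finset

namespace Pool.Agent.K1H43.SP

open Pool.Agent.H322R2

/-- the number of large points, irreducible leading form -/
theorem single_irr (F : MvPolynomial (Fin 2) ℤ) (hd : 4 ≤ F.totalDegree)
    (hirr : Irreducible (MvPolynomial.map (Int.castRingHom ℚ)
      (MvPolynomial.homogeneousComponent F.totalDegree F)))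
    (T : Finset (ℤ × ℤ))
    (hT : ∀ P ∈ T, MvPolynomial.eval ![P.1, P.2] F = 0 ∧
      ((F.totalDegree + 1) * len F) ^ (kC F.totalDegree) < max P.1.natAbs P.2.natAbs) :
    T.card ≤ 168 * F.totalDegree ^ 3 * kap F.totalDegree := by
  classical
  obtain ⟨d, hdd⟩ : ∃ d, d = F.totalDegree := ⟨_, rfl⟩
  have hF0 : F ≠ 0 := by
    rintro rfl
    simp at hd
  obtain ⟨u, hu, hcu⟩ := exists_u F hF0
  have hcl : lc F u ≠ 0 := hcu
  obtain ⟨M, hM⟩ : ∃ M : ℝ, M = ((len F : ℝ) * (1 + d) ^ d) ^ d := ⟨_, rfl⟩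
  obtain ⟨K, hK⟩ : ∃ K : ℝ, K = 2 + 2 * M := ⟨_, rfl⟩
  obtain ⟨hM1, hpnG, hpt⟩ := pert_point hdd hd hirr le_rfl hF0 hu hcl hM hK
  obtain ⟨f, hf⟩ : ∃ f : ℤ × ℤ → ℤ × ℤ, f = fun P : ℤ × ℤ => (P.2 - u * P.1, lc F u * P.1) :=
    ⟨_, rfl⟩
  have hinj : Function.Injective f := by
    intro P Q h
    rw [hf] at h
    simp only [Prod.mk.injEq] at h
    have h1 := mul_left_cancel₀ hcl h.2
    have h2 := h.1
    rw [h1] at h2
    exact Prod.ext h1 (by linarith)
  have hcard : (T.image f).card = T.card := Finset.card_image_of_injective _ hinj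
  have hmain := mono_countD (d := d) (by omega) (GG_monic hcl) (by rw [GG_natDegree hcl, hdd])
    (by rw [hdd]; exact GG_TD hcl) hM1 hpnG
    (by rw [hdd]; exact lead_irr hcl (by omega) hirr) d (T.image f) (by
      intro S hS hcol
      obtain ⟨S0, hS0, hSS⟩ := Finset.subset_image_iff.1 hS
      have hS0T : ∀ t ∈ S0, t ∈ T := fun t ht => Finset.mem_coe.1 (hS0 (Finset.mem_coe.2 ht))
      have hSc : S.card = S0.card := by
        rw [← hSS]
        exact Finset.card_image_of_injective _ hinj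
      have h0 : (0 : ℕ) ≤ 0 ^ F.totalDegree := Nat.zero_le _
      have h1 := col_count hcl (by omega) hirr h0 S0 (by
        intro P hP Q hQ R hR
        have hmem : ∀ t ∈ S0, f t ∈ S := by
          intro t ht
          rw [← hSS]
          exact Finset.mem_image_of_mem f ht
        have h1 := hcol (f P) (hmem P hP) (f Q) (hmem Q hQ) (f R) (hmem R hR)
        rw [hf] at h1
        simp only at h1 ⊢
        have h2 : lc F u * ((Q.1 - P.1) * (R.2 - P.2) - (R.1 - P.1) * (Q.2 - P.2)) = 0 := by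
          linear_combination (-1) * h1
        rcases mul_eq_zero.1 h2 with h | h
        · exact absurd h hcl
        · exact h) (by
        intro P hP
        rw [(hT P (hS0T P hP)).1]
        simp)
      rw [hSc]
      refine h1.trans (le_of_eq ?_)
      rw [hdd]
      ring) (by
      intro P hP
      rw [Finset.mem_image] at hP
      obtain ⟨t, ht, rfl⟩ := hP
      obtain ⟨g1, g2⟩ := hT t ht
      obtain ⟨p1, p2, p3, p4, p5⟩ := hpt 0 t.1 t.2 (by rw [MvPolynomial.totalDegree_zero]; omega)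
        (by simp [len]) (by rw [add_zero]; exact g1) g2
      rw [hf, ← hK]
      exact ⟨p1, RR F 0 u, p2, p3, p4, p5⟩)
  rw [hcard] at hmain
  refine hmain.trans ?_
  rw [← hdd]
  have hd4 : 4 ≤ d := by omega
  obtain ⟨κ, hκ⟩ : ∃ κ, κ = kap d := ⟨_, rfl⟩
  rw [← hκ]
  calc (160 * d ^ 2 * κ + d * (8 * κ)) * d = 160 * d ^ 3 * κ + 8 * (d ^ 2 * 1) * κ := by ring
    _ ≤ 160 * d ^ 3 * κ + 8 * (d ^ 2 * d) * κ := by gcongr; omega
    _ = _ := by ring

/-- the number of integer points of a curve which are larger than the explicit bound -/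
theorem single (F : MvPolynomial (Fin 2) ℤ) (hd : 4 ≤ F.totalDegree)
    (hirr : Irreducible (MvPolynomial.map (Int.castRingHom ℚ) F))
    (hsq : Squarefree (MvPolynomial.map (Int.castRingHom ℚ)
      (MvPolynomial.homogeneousComponent F.totalDegree F))) :
    {P : ℤ × ℤ | MvPolynomial.eval ![P.1, P.2] F = 0 ∧
      ((F.totalDegree + 1) * len F) ^ (kE F.totalDegree) < max P.1.natAbs P.2.natAbs}.encard ≤
      (168 * F.totalDegree ^ 3 * kap F.totalDegree : ℕ) := by
  classical
  by_contra hcon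
  push Not at hcon
  have hcon' : ((168 * F.totalDegree ^ 3 * kap F.totalDegree + 1 : ℕ) : ℕ∞) ≤
      {P : ℤ × ℤ | MvPolynomial.eval ![P.1, P.2] F = 0 ∧
      ((F.totalDegree + 1) * len F) ^ (kE F.totalDegree) < max P.1.natAbs P.2.natAbs}.encard := by
    have := Order.add_one_le_of_lt hcon
    push_cast at this ⊢
    exact this
  obtain ⟨T0, hT0sub, hT0card⟩ := Set.exists_subset_encard_eq hcon'
  have hT0fin : T0.Finite := Set.finite_of_encard_eq_coe hT0card
  have hcard : hT0fin.toFinset.card = 168 * F.totalDegree ^ 3 * kap F.totalDegree + 1 := by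
    have h1 := hT0fin.encard_eq_coe_toFinset_card
    rw [hT0card] at h1
    exact_mod_cast h1.symm
  have hmem : ∀ P ∈ hT0fin.toFinset, MvPolynomial.eval ![P.1, P.2] F = 0 ∧
      ((F.totalDegree + 1) * len F) ^ (kE F.totalDegree) < max P.1.natAbs P.2.natAbs := by
    intro P hP
    rw [Set.Finite.mem_toFinset] at hP
    exact hT0sub hP
  have hF0 : F ≠ 0 := by
    rintro rfl
    simp at hd
  have hlen := len_pos hF0
  have hne : hT0fin.toFinset.Nonempty := by
    rw [← Finset.card_pos]
    omega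
  obtain ⟨P0, hP0⟩ := hne
  have hlead := irr_lead_of_large hd hirr hsq (hmem P0 hP0).1 (hmem P0 hP0).2
  have hkk : kC F.totalDegree ≤ kE F.totalDegree := by
    unfold kC kE
    have h7 : (F.totalDegree + 1) ^ 11 ≤ (F.totalDegree + 1) ^ 13 :=
      Nat.pow_le_pow_right (by omega) (by norm_num)
    exact Nat.mul_le_mul (Nat.mul_le_mul_right _ (by norm_num)) h7
  have h := single_irr F hd hlead hT0fin.toFinset (by
    intro P hP
    obtain ⟨h1, h2⟩ := hmem P hP
    refine ⟨h1, lt_of_le_of_lt ?_ h2⟩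
    exact Nat.pow_le_pow_right (Nat.mul_pos (by omega) hlen) hkk)
  omega

end Pool.Agent.K1H43.SP
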